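import Mathlib

namespace Pool.Agent.Results.MP_b56e9d_an.BackwardShift

open Filter Topology Function

section defs

variable {H : Type*} [NormedAddCommGroup H] [InnerProductSpace ℂ H]

/-- `T` is a Fredholm operator: closed range, finite-dimensional kernel and cokernel. -/
def Fredholm (T : H →L[ℂ] H) : Prop :=
  IsClosed (Set.range T) ∧ FiniteDimensional ℂ (LinearMap.ker (T : H →ₗ[ℂ] H)) ∧
    FiniteDimensional ℂ (H ⧸ LinearMap.range (T : H →ₗ[ℂ] H))

/-- The pair `(S₁, S₂)` is (Taylor) invertible: its Koszul complex is exact. -/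
def InvertiblePair (S₁ S₂ : H →L[ℂ] H) : Prop :=
  (∀ x, S₁ x = 0 → S₂ x = 0 → x = 0) ∧ (∀ w, ∃ x y, S₁ x + S₂ y = w) ∧
    ∀ x y, S₁ y = S₂ x → ∃ z, x = S₁ z ∧ y = S₂ z

end defs

section abstract_part

variable {H : Type*} [NormedAddCommGroup H] [InnerProductSpace ℂ H] [CompleteSpace H]

/-- A right invertible, non-injective operator has no injective compact perturbation. -/
lemma not_inj (B R D : H →L[ℂ] H) (hBR : ∀ x, B (R x) = x) (hB : ∃ x, x ≠ 0 ∧ B x = 0)
    (hD : IsCompactOperator D) : ∃ x, x ≠ 0 ∧ B x + D x = 0 := by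
  by_contra hcon
  push Not at hcon
  have hcomp : IsCompactOperator (D.comp R) := hD.comp_clm R
  rcases hcomp.hasEigenvalue_or_mem_resolventSet (μ := (-1 : ℂ)) (by norm_num) with h | h
  · obtain ⟨x, hx⟩ := h.exists_hasEigenvector
    have h1 : D (R x) = -x := by
      have := hx.apply_eq_smul
      simpa using this
    have h2 : R x ≠ 0 := by
      intro h0
      apply hx.2
      rw [← hBR x, h0, map_zero]
    apply hcon (R x) h2
    rw [hBR, h1, add_neg_cancel]
  · rw [spectrum.mem_resolventSet_iff, ← IsUnit.neg_iff,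
      ContinuousLinearMap.isUnit_iff_bijective] at h
    obtain ⟨x, hx0, hx⟩ := hB
    obtain ⟨y, hy⟩ := h.2 (B x + D x)
    have h3 : y + D (R y) = B x + D x := by
      rw [← hy]
      simp [Algebra.algebraMap_eq_smul_one, add_comm]
    have h4 : x - R y = 0 := by
      by_contra hne
      apply hcon _ hne
      rw [map_sub, map_sub, hBR]
      have : B x - y + (D x - D (R y)) = (B x + D x) - (y + D (R y)) := by abel
      rw [this, h3, sub_self]
    have h5 : x = R y := sub_eq_zero.1 h4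
    have h6 : y = 0 := by rw [← hBR y, ← h5, hx]
    apply hx0
    rw [h5, h6, map_zero]

/-- The kernel of a compact perturbation of `B` is finite-dimensional. -/
lemma ker_finite (B R D : H →L[ℂ] H) (hP : IsCompactOperator ((1 : H →L[ℂ] H) - R * B))
    (hD : IsCompactOperator D) :
    FiniteDimensional ℂ (LinearMap.ker ((B + D : H →L[ℂ] H) : H →ₗ[ℂ] H)) := by
  set M := LinearMap.ker ((B + D : H →L[ℂ] H) : H →ₗ[ℂ] H) with hM
  have hcl : IsClosed (M : Set H) := (B + D).isClosed_ker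
  have : CompleteSpace M := hcl.completeSpace_coe
  have hQ : IsCompactOperator (((1 : H →L[ℂ] H) - R * B - R * D : H →L[ℂ] H)) :=
    hP.sub (hD.clm_comp R)
  have hid : ∀ x ∈ M, ((1 : H →L[ℂ] H) - R * B - R * D : H →L[ℂ] H) x = x := by
    intro x hx
    have h1 : B x + D x = 0 := hx
    have h2 : R (B x) + R (D x) = 0 := by rw [← map_add, h1, map_zero]
    change x - R (B x) - R (D x) = x
    rw [sub_sub, h2, sub_zero]
  have hres := IsCompactOperator.restrict' (f := ((((1 : H →L[ℂ] H) - R * B - R * D : H →L[ℂ] H)) :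
    H →ₗ[ℂ] H)) hQ (V := M) (fun x hx => by
      change ((1 : H →L[ℂ] H) - R * B - R * D : H →L[ℂ] H) x ∈ M
      rw [hid x hx]; exact hx)
  apply FiniteDimensional.of_isCompactOperator_id (𝕜 := ℂ)
  refine Eq.mp (congrArg IsCompactOperator ?_) hres
  funext x
  apply Subtype.ext
  exact hid x.1 x.2

/-- An orthonormal sequence is mapped to zero by a compact operator. -/
lemma compact_orthonormal (K : H →L[ℂ] H) (hK : IsCompactOperator K) (v : ℕ → H)
    (hv : Orthonormal ℂ v) (δ : ℝ) (hδ : 0 < δ) : ∃ n, ‖K (v n)‖ < δ := by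
  by_contra hcon
  push Not at hcon
  obtain ⟨C, hC, hC'⟩ := hK.image_closedBall_subset_compact 1
  obtain ⟨w, -, φ, hφ, hlim⟩ := hC.tendsto_subseq (x := fun n => K (v n))
    (fun n => hC' ⟨v n, by simp [hv.1 n], rfl⟩)
  have h1 : Tendsto (fun n => inner ℂ (K (v (φ n))) w) atTop (𝓝 (inner ℂ w w)) :=
    Filter.Tendsto.inner hlim tendsto_const_nhds
  have h2 : Tendsto (fun n => inner ℂ (K (v n)) w) atTop (𝓝 (0 : ℂ)) := by
    have h3 : Summable fun n => ‖inner ℂ (v n) ((ContinuousLinearMap.adjoint K) w)‖ ^ 2 :=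
      hv.inner_products_summable _
    have h4 := h3.tendsto_atTop_zero
    rw [tendsto_zero_iff_norm_tendsto_zero]
    have h5 : Tendsto (fun n => Real.sqrt (‖inner ℂ (v n) ((ContinuousLinearMap.adjoint K) w)‖ ^ 2))
        atTop (𝓝 (Real.sqrt 0)) := h4.sqrt
    rw [Real.sqrt_zero] at h5
    refine h5.congr fun n => ?_
    rw [Real.sqrt_sq (norm_nonneg _), ContinuousLinearMap.adjoint_inner_right]
  have h6 := tendsto_nhds_unique h1 (h2.comp hφ.tendsto_atTop)
  have h7 : w = 0 := inner_self_eq_zero.1 h6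
  have h8 : Tendsto (fun n => ‖K (v (φ n))‖) atTop (𝓝 ‖w‖) := hlim.norm
  have h9 : δ ≤ ‖w‖ := ge_of_tendsto' h8 fun n => hcon _
  rw [h7, norm_zero] at h9
  linarith

/-- An invertible pair is bounded below. -/
lemma bounded_below (S₁ S₂ : H →L[ℂ] H) (hc : Commute S₁ S₂) (hinv : InvertiblePair S₁ S₂) :
    ∃ C : ℝ, 0 < C ∧ ∀ (x : H) (r : ℝ), ‖S₁ x‖ ≤ r → ‖S₂ x‖ ≤ r → ‖x‖ ≤ C * r := by
  have hcomm : ∀ x, S₁ (S₂ x) = S₂ (S₁ x) := fun x => congrArg (fun T : H →L[ℂ] H => T x) hc.eq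
  have hinj : Injective (S₁.prod S₂) := by
    rw [injective_iff_map_eq_zero]
    intro x hx
    rw [ContinuousLinearMap.prod_apply, Prod.mk_eq_zero] at hx
    exact hinv.1 x hx.1 hx.2
  have hrange : Set.range (S₁.prod S₂) = {p : H × H | S₁ p.2 = S₂ p.1} := by
    ext p
    constructor
    · rintro ⟨x, rfl⟩
      exact hcomm x
    · intro hp
      obtain ⟨z, h1, h2⟩ := hinv.2.2 p.1 p.2 hp
      exact ⟨z, Prod.ext h1.symm h2.symm⟩
  have hcl : IsClosed (Set.range (S₁.prod S₂)) := by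
    rw [hrange]
    exact isClosed_eq (S₁.continuous.comp continuous_snd) (S₂.continuous.comp continuous_fst)
  obtain ⟨K, hK⟩ := ContinuousLinearMap.antilipschitz_of_injective_of_isClosed_range _ hinj hcl
  refine ⟨K + 1, by positivity, fun x r h1 h2 => ?_⟩
  have h3 := hK.le_mul_norm (by simp) x
  have h4 : ‖(S₁.prod S₂) x‖ ≤ r := by
    rw [ContinuousLinearMap.prod_apply, Prod.norm_def]
    exact max_le h1 h2
  have hr : 0 ≤ r := (norm_nonneg _).trans h1
  calc ‖x‖ ≤ K * ‖(S₁.prod S₂) x‖ := h3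
    _ ≤ K * r := mul_le_mul_of_nonneg_left h4 K.2
    _ ≤ (K + 1) * r := by nlinarith

/-- joint eigenvectors -/
lemma joint (B R K₁ K₂ : H →L[ℂ] H) (hBR : ∀ x, B (R x) = x) (hB : ∃ x, x ≠ 0 ∧ B x = 0)
    (hP : IsCompactOperator ((1 : H →L[ℂ] H) - R * B)) (h₁ : IsCompactOperator K₁)
    (h₂ : IsCompactOperator K₂) (hc : Commute (B + K₁) (B + K₂)) (t : ℂ) :
    ∃ (x : H) (κ : ℂ), ‖x‖ = 1 ∧ (K₂ - K₁) x = κ • x ∧ (B + K₁) x = (-(t * κ)) • x := by
  set D : H →L[ℂ] H := K₁ + t • (K₂ - K₁) with hD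
  have hDc : IsCompactOperator D := h₁.add ((h₂.sub h₁).smul t)
  set M := LinearMap.ker ((B + D : H →L[ℂ] H) : H →ₗ[ℂ] H) with hM
  have hfin : FiniteDimensional ℂ M := ker_finite B R D hP hDc
  obtain ⟨x0, hx0, hx0'⟩ := not_inj B R D hBR hB hDc
  have hnt : Nontrivial M := ⟨⟨⟨x0, hx0'⟩, 0, fun h => hx0 (Subtype.ext_iff.1 h)⟩⟩
  have hcomm : ∀ x, (B + K₁) ((B + K₂) x) = (B + K₂) ((B + K₁) x) :=
    fun x => congrArg (fun T : H →L[ℂ] H => T x) hc.eq
  have hK : ∀ x, (K₂ - K₁) x = (B + K₂) x - (B + K₁) x := by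
    intro x
    change K₂ x - K₁ x = (B x + K₂ x) - (B x + K₁ x)
    abel
  have hBD : ∀ x, (B + D) x = (B + K₁) x + t • ((B + K₂) x - (B + K₁) x) := by
    intro x
    rw [← hK]
    change B x + (K₁ x + t • (K₂ - K₁) x) = (B x + K₁ x) + t • (K₂ - K₁) x
    abel
  have hinv : ∀ x ∈ M, ((K₂ - K₁ : H →L[ℂ] H) : H →ₗ[ℂ] H) x ∈ M := by
    intro x hx
    have h0 : (B + D) x = 0 := hx
    change (B + D) ((K₂ - K₁) x) = 0
    have e : (B + D) ((K₂ - K₁) x) = (K₂ - K₁) ((B + D) x) := by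
      rw [hBD, hK ((B + D) x), hBD x, hK x]
      simp only [map_sub, map_add, map_smul, hcomm, smul_sub]
      abel
    rw [e, h0, map_zero]
  obtain ⟨κ, hκ⟩ := Module.End.exists_eigenvalue (((K₂ - K₁ : H →L[ℂ] H) : H →ₗ[ℂ] H).restrict hinv)
  obtain ⟨y, hy⟩ := hκ.exists_hasEigenvector
  have hy1 : (K₂ - K₁) (y : H) = κ • (y : H) := congrArg Subtype.val hy.apply_eq_smul
  have hy0 : (y : H) ≠ 0 := fun h => hy.2 (Subtype.ext h)
  have hyM : (B + D) (y : H) = 0 := y.2
  rw [hBD, ← hK, hy1] at hyM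
  have hy2 : (B + K₁) (y : H) = (-(t * κ)) • (y : H) := by
    rw [neg_smul, mul_smul]
    exact eq_neg_of_add_eq_zero_left hyM
  refine ⟨((‖(y : H)‖⁻¹ : ℝ) : ℂ) • (y : H), κ, ?_, ?_, ?_⟩
  · rw [norm_smul, Complex.norm_real, norm_inv, norm_norm, inv_mul_cancel₀ (norm_ne_zero_iff.2 hy0)]
  · rw [map_smul, hy1, smul_comm]
  · rw [map_smul, hy2, smul_comm]

/-- The main contradiction. -/
lemma main (B R K₁ K₂ : H →L[ℂ] H) (hBR : ∀ x, B (R x) = x) (hB : ∃ x, x ≠ 0 ∧ B x = 0)
    (hP : IsCompactOperator ((1 : H →L[ℂ] H) - R * B)) (h₁ : IsCompactOperator K₁)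
    (h₂ : IsCompactOperator K₂) (hc : Commute (B + K₁) (B + K₂)) :
    ¬ InvertiblePair (B + K₁) (B + K₂) := by
  intro hinv
  obtain ⟨C, hC, hbb⟩ := bounded_below _ _ hc hinv
  obtain ⟨t, ht⟩ : ∃ t : ℕ → ℝ, ∀ n, t n = 1 / ((n : ℝ) + 1) := ⟨_, fun n => rfl⟩
  have ht0 : ∀ n, 0 ≤ t n := fun n => by rw [ht]; positivity
  have ht1 : ∀ n, t n ≤ 1 := fun n => by
    rw [ht, div_le_one (by positivity)]
    have : (0 : ℝ) ≤ n := Nat.cast_nonneg n
    linarith
  have htinj : Injective t := by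
    intro m n h
    rw [ht, ht] at h
    have h2 : ((m : ℝ) + 1) = (n : ℝ) + 1 := by
      have := congrArg (fun x : ℝ => x⁻¹) h
      simpa using this
    exact_mod_cast (by linarith : (m : ℝ) = n)
  choose x κ hx1 hxK hxS using fun n => joint B R K₁ K₂ hBR hB hP h₁ h₂ hc ((t n : ℝ) : ℂ)
  -- lower bound for the eigenvalues
  have hκ : ∀ n, 1 / C ≤ ‖κ n‖ := by
    intro n
    have e1 : ‖(B + K₁) (x n)‖ ≤ ‖κ n‖ := by
      rw [hxS, norm_smul, hx1, mul_one, norm_neg, norm_mul, Complex.norm_real, Real.norm_eq_abs,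
        abs_of_nonneg (ht0 n)]
      exact mul_le_of_le_one_left (norm_nonneg _) (ht1 n)
    have e2 : ‖(B + K₂) (x n)‖ ≤ ‖κ n‖ := by
      have e3 : (B + K₂) (x n) = (((1 - t n : ℝ) : ℂ) * κ n) • x n := by
        have e4 : (B + K₂) (x n) = (B + K₁) (x n) + (K₂ - K₁) (x n) := by
          change B (x n) + K₂ (x n) = (B (x n) + K₁ (x n)) + (K₂ (x n) - K₁ (x n))
          abel
        rw [e4, hxS, hxK, ← add_smul]
        congr 1
        push_cast
        ring
      rw [e3, norm_smul, hx1, mul_one, norm_mul, Complex.norm_real, Real.norm_eq_abs,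
        abs_of_nonneg (by linarith [ht1 n])]
      exact mul_le_of_le_one_left (norm_nonneg _) (by linarith [ht0 n])
    have e5 := hbb (x n) _ e1 e2
    rw [hx1] at e5
    rw [div_le_iff₀ hC]
    linarith
  have hκ0 : ∀ n, κ n ≠ 0 := by
    intro n h
    have := hκ n
    rw [h, norm_zero] at this
    have h2 : 0 < 1 / C := by positivity
    linarith
  -- linear independence
  have hli : LinearIndependent ℂ x := by
    obtain ⟨α, hα⟩ : ∃ α : ℂ, α ∉ Set.range (fun p : ℕ × ℕ =>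
        ((t p.1 : ℂ) * κ p.1 - (t p.2 : ℂ) * κ p.2) / (κ p.1 - κ p.2)) := by
      obtain ⟨α, hα⟩ := ((Set.countable_range (fun p : ℕ × ℕ =>
        ((t p.1 : ℂ) * κ p.1 - (t p.2 : ℂ) * κ p.2) / (κ p.1 - κ p.2))).dense_compl ℝ).nonempty
      exact ⟨α, hα⟩
    refine Module.End.eigenvectors_linearIndependent'
      (((B + K₁) + α • (K₂ - K₁) : H →L[ℂ] H) : H →ₗ[ℂ] H) (fun n => (α - t n) * κ n) ?_ x ?_
    · intro m n hmn
      simp only at hmn
      by_contra hne
      have htne : (t m : ℂ) ≠ t n := by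
        intro h
        exact hne (htinj (by exact_mod_cast h))
      by_cases hk : κ m = κ n
      · rw [hk] at hmn
        have := mul_right_cancel₀ (hκ0 n) hmn
        apply htne
        linear_combination -this
      · apply hα
        refine ⟨(m, n), ?_⟩
        have hk' : κ m - κ n ≠ 0 := sub_ne_zero.2 hk
        simp only
        rw [div_eq_iff hk']
        linear_combination -hmn
    · intro n
      refine ⟨Module.End.mem_eigenspace_iff.2 ?_, ?_⟩
      · change (B + K₁) (x n) + α • (K₂ - K₁) (x n) = ((α - t n) * κ n) • x n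
        rw [hxS, hxK, smul_smul, ← add_smul]
        congr 1
        ring
      · intro h
        have := hx1 n
        rw [h, norm_zero] at this
        exact zero_ne_one this
  -- Gram-Schmidt
  set v := InnerProductSpace.gramSchmidtNormed ℂ x with hv
  have hvo : Orthonormal ℂ v := InnerProductSpace.gramSchmidtNormed_orthonormal hli
  obtain ⟨n, hn⟩ := compact_orthonormal (K₂ - K₁) (h₂.sub h₁) v hvo (1 / C) (by positivity)
  have key : ∀ u ∈ Submodule.span ℂ (x '' Set.Iic n),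
      (K₂ - K₁) u - κ n • u ∈ Submodule.span ℂ (x '' Set.Iio n) := by
    intro u hu
    induction hu using Submodule.span_induction with
    | mem u hu =>
      obtain ⟨j, hj, rfl⟩ := hu
      rw [hxK, ← sub_smul]
      rcases eq_or_lt_of_le (Set.mem_Iic.1 hj) with h | h
      · subst h
        simp
      · exact Submodule.smul_mem _ _ (Submodule.subset_span ⟨j, h, rfl⟩)
    | zero => simp
    | add a b _ _ ha hb =>
      have := Submodule.add_mem _ ha hb
      convert this using 1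
      rw [map_add, smul_add]
      abel
    | smul c a _ ha =>
      have := Submodule.smul_mem _ c ha
      convert this using 1
      rw [map_smul, smul_sub, smul_comm c]
  have hvn : v n = ((‖InnerProductSpace.gramSchmidt ℂ x n‖ : ℂ)⁻¹) •
      InnerProductSpace.gramSchmidt ℂ x n := rfl
  have hmem : v n ∈ Submodule.span ℂ (x '' Set.Iic n) := by
    rw [hvn]
    exact Submodule.smul_mem _ _ (InnerProductSpace.gramSchmidt_mem_span ℂ x le_rfl)
  have horth : ∀ w ∈ Submodule.span ℂ (x '' Set.Iio n), inner ℂ (v n) w = 0 := by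
    intro w hw
    rw [← InnerProductSpace.span_gramSchmidt_Iio] at hw
    induction hw using Submodule.span_induction with
    | mem u hu =>
      obtain ⟨j, hj, rfl⟩ := hu
      rw [hvn, inner_smul_left, InnerProductSpace.gramSchmidt_orthogonal ℂ x
        (ne_of_gt (Set.mem_Iio.1 hj)), mul_zero]
    | zero => simp
    | add a b _ _ ha hb => rw [inner_add_right, ha, hb, add_zero]
    | smul c a _ ha => rw [inner_smul_right, ha, mul_zero]
  have h3 := horth _ (key _ hmem)
  rw [inner_sub_right, inner_smul_right, inner_self_eq_norm_sq_to_K, hvo.1 n] at h3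
  have h4 : inner ℂ (v n) ((K₂ - K₁) (v n)) = κ n := by
    have := sub_eq_zero.1 h3
    rw [this]
    simp
  have h5 : ‖κ n‖ ≤ ‖(K₂ - K₁) (v n)‖ := by
    rw [← h4]
    refine (norm_inner_le_norm _ _).trans ?_
    rw [hvo.1 n, one_mul]
  have := hκ n
  linarith

end abstract_part

section shift

/-- The Hilbert space `ℓ²`. -/
abbrev E : Type := lp (fun _ : ℕ => ℂ) 2

lemma memℓp_back (f : E) : Memℓp (fun n => f (n + 1)) 2 := by
  have h := lp.memℓp f
  rw [memℓp_gen_iff (by norm_num)] at h ⊢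
  exact (summable_nat_add_iff 1).2 h

lemma memℓp_fwd (f : E) : Memℓp (E := fun _ : ℕ => ℂ) (fun n => if n = 0 then 0 else f (n - 1)) 2 := by
  have h := lp.memℓp f
  rw [memℓp_gen_iff (by norm_num)] at h ⊢
  rw [← summable_nat_add_iff 1]
  simpa using h

/-- The backward shift as a linear map. -/
def Bl : E →ₗ[ℂ] E where
  toFun f := ⟨fun n => f (n + 1), memℓp_back f⟩
  map_add' f g := by
    apply lp.ext
    funext n
    rfl
  map_smul' c f := by
    apply lp.ext
    funext n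
    rfl

/-- The forward shift as a linear map. -/
def Rl : E →ₗ[ℂ] E where
  toFun f := ⟨fun n => if n = 0 then 0 else f (n - 1), memℓp_fwd f⟩
  map_add' f g := by
    apply lp.ext
    funext n
    change (if n = 0 then 0 else f (n - 1) + g (n - 1)) =
      (if n = 0 then 0 else f (n - 1)) + (if n = 0 then 0 else g (n - 1))
    split_ifs <;> simp
  map_smul' c f := by
    apply lp.ext
    funext n
    change (if n = 0 then 0 else c • f (n - 1)) = c • (if n = 0 then 0 else f (n - 1))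
    split_ifs <;> simp

lemma norm_Bl (f : E) : ‖Bl f‖ ≤ 1 * ‖f‖ := by
  rw [one_mul]
  have h1 := lp.norm_rpow_eq_tsum (p := 2) (by norm_num) f
  have h2 := lp.norm_rpow_eq_tsum (p := 2) (by norm_num) (Bl f)
  have hs := lp.memℓp f
  rw [memℓp_gen_iff (by norm_num)] at hs
  rw [hs.tsum_eq_zero_add] at h1
  have h3 : ‖Bl f‖ ^ (2 : ENNReal).toReal ≤ ‖f‖ ^ (2 : ENNReal).toReal := by
    rw [h1, h2]
    have : 0 ≤ ‖f 0‖ ^ (2 : ENNReal).toReal := by positivity
    have h4 : (∑' i, ‖(Bl f) i‖ ^ (2 : ENNReal).toReal) = ∑' i, ‖f (i + 1)‖ ^ (2 : ENNReal).toReal := rfl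
    rw [h4]
    linarith
  exact (Real.rpow_le_rpow_iff (norm_nonneg _) (norm_nonneg _) (by norm_num)).1 h3

lemma norm_Rl (f : E) : ‖Rl f‖ ≤ 1 * ‖f‖ := by
  rw [one_mul]
  have h1 := lp.norm_rpow_eq_tsum (p := 2) (by norm_num) f
  have h2 := lp.norm_rpow_eq_tsum (p := 2) (by norm_num) (Rl f)
  have hs := lp.memℓp (Rl f)
  rw [memℓp_gen_iff (by norm_num)] at hs
  rw [hs.tsum_eq_zero_add] at h2
  have h3 : ‖Rl f‖ ^ (2 : ENNReal).toReal ≤ ‖f‖ ^ (2 : ENNReal).toReal := by
    rw [h1, h2]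
    have h4 : ∀ i, (Rl f) (i + 1) = f i := fun i => by simp [Rl]
    have h5 : (Rl f) 0 = 0 := by simp [Rl]
    simp only [h4, h5]
    simp
  exact (Real.rpow_le_rpow_iff (norm_nonneg _) (norm_nonneg _) (by norm_num)).1 h3

/-- The backward shift. -/
noncomputable def B : E →L[ℂ] E := Bl.mkContinuous 1 norm_Bl

/-- The forward shift. -/
noncomputable def R : E →L[ℂ] E := Rl.mkContinuous 1 norm_Rl

lemma B_apply (f : E) (n : ℕ) : B f n = f (n + 1) := rfl

lemma R_zero (f : E) : R f 0 = 0 := by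
  change (Rl f) 0 = 0
  simp [Rl]

lemma R_succ (f : E) (n : ℕ) : R f (n + 1) = f n := by
  change (Rl f) (n + 1) = f n
  simp [Rl]

lemma B_R (f : E) : B (R f) = f := by
  apply lp.ext
  funext n
  rw [B_apply, R_succ]

lemma sub_RB (f : E) : f - R (B f) = f 0 • lp.single 2 0 (1 : ℂ) := by
  apply lp.ext
  funext n
  rw [lp.coeFn_sub, Pi.sub_apply, lp.coeFn_smul, Pi.smul_apply]
  cases n with
  | zero => rw [R_zero, lp.single_apply_self]; simp
  | succ n => rw [R_succ, B_apply, lp.single_apply_ne _ _ _ (by simp)]; simp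

lemma e0_ne : (lp.single 2 0 (1 : ℂ) : E) ≠ 0 := by
  intro h
  have h1 : (lp.single 2 0 (1 : ℂ) : E) 0 = (0 : E) 0 := by rw [h]
  rw [lp.single_apply_self] at h1
  simp at h1

lemma B_e0 : B (lp.single 2 0 (1 : ℂ)) = 0 := by
  apply lp.ext
  funext n
  rw [B_apply, lp.single_apply_ne _ _ _ (by simp)]
  simp

/-- The map `c ↦ c e₀`. -/
noncomputable def J : ℂ →L[ℂ] E :=
  ContinuousLinearMap.toSpanSingleton ℂ (lp.single 2 0 (1 : ℂ) : E)

/-- evaluation at `0` -/
noncomputable def ev : E →L[ℂ] ℂ := innerSL ℂ (lp.single 2 0 (1 : ℂ) : E)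

lemma ev_apply (f : E) : ev f = f 0 := by
  change inner ℂ (lp.single 2 0 (1 : ℂ) : E) f = f 0
  rw [lp.inner_single_left]
  simp

lemma compactP : IsCompactOperator ((1 : E →L[ℂ] E) - R * B) := by
  have h1 : (1 : E →L[ℂ] E) - R * B = J.comp ev := by
    ext1 f
    change f - R (B f) = ev f • (lp.single 2 0 (1 : ℂ) : E)
    rw [sub_RB, ev_apply]
  rw [h1]
  have h2 : IsCompactOperator J := by
    have : IsCompactOperator (ContinuousLinearMap.id ℂ ℂ) := by
      exact (isCompactOperator_id : IsCompactOperator (id : ℂ → ℂ))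
    exact this.clm_comp J
  exact h2.comp_clm ev

lemma fredholm_B : Fredholm B := by
  have hsurj : Surjective B := fun f => ⟨R f, B_R f⟩
  refine ⟨?_, ?_, ?_⟩
  · rw [hsurj.range_eq]
    exact isClosed_univ
  · have h := ker_finite B R 0 compactP isCompactOperator_zero
    rwa [add_zero] at h
  · have h : LinearMap.range (B : E →ₗ[ℂ] E) = ⊤ := LinearMap.range_eq_top.2 hsurj
    rw [h]
    infer_instance

end shift

theorem result : ∃ (H : Type) (_ : NormedAddCommGroup H) (_ : InnerProductSpace ℂ H)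
    (_ : CompleteSpace H) (T : H →L[ℂ] H), Fredholm T ∧
    ∀ K₁ K₂ : H →L[ℂ] H, IsCompactOperator K₁ → IsCompactOperator K₂ →
      Commute (T + K₁) (T + K₂) → ¬ InvertiblePair (T + K₁) (T + K₂) :=
  ⟨E, inferInstance, inferInstance, inferInstance, B, fredholm_B, fun K₁ K₂ h₁ h₂ hc =>
    main B R K₁ K₂ B_R ⟨_, e0_ne, B_e0⟩ compactP h₁ h₂ hc⟩

end Pool.Agent.Results.MP_b56e9d_an.BackwardShift
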